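import Pool.Agent.Helper53.UW.Ask

/-!
# Project UR3 (MP_c578c8_lc), packet UW-SUM: two families of questions together
-/

set_option autoImplicit false

namespace Pool.Agent.Helper57.UW

open Pool.Agent.Helper65.LinSpace Pool.Agent.Helper53.UW

theorem gSUM : GoalSUM := by
  intro κ κ' _ _ Q R hQ hR
  have c0 : ∀ x y : ℕ, ifz 0 x y = x := fun x y => rfl
  have c1 : ∀ i x y : ℕ, ifz (i + 1) x y = y := fun i x y => by
    unfold ifz
    rw [if_neg (Nat.succ_ne_zero i)]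
  have l1 : LS (fun z : ℕ × κ × κ' => z.1) := LS.fst
  have l2 : LS (fun z : ℕ × κ × κ' => z.2.1) := LS.fst.comp LS.snd
  have l3 : LS (fun z : ℕ × κ × κ' => z.2.2) := LS.snd.comp LS.snd
  have k1 : LS (fun x : (ℕ × κ × κ') × ℕ => x.1.1) := l1.comp LS.fst
  have k2 : LS (fun x : (ℕ × κ × κ') × ℕ => (x.1.2.1, x.2)) := (l2.comp LS.fst).prodMk LS.snd
  have k3 : LS (fun x : (ℕ × κ × κ') × ℕ => (x.1.2.2, x.2)) := (l3.comp LS.fst).prodMk LS.snd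
  have m1 : LS (fun x : (ℕ × κ × κ') × ℕ × ℕ × ℕ × ℕ × ℕ => x.1.1) := l1.comp LS.fst
  have m2 : LS (fun x : (ℕ × κ × κ') × ℕ × ℕ × ℕ × ℕ × ℕ => (x.1.2.1, x.2)) :=
    (l2.comp LS.fst).prodMk LS.snd
  have m3 : LS (fun x : (ℕ × κ × κ') × ℕ × ℕ × ℕ × ℕ × ℕ => (x.1.2.2, x.2)) :=
    (l3.comp LS.fst).prodMk LS.snd
  refine ⟨⟨?_, ?_, ?_, ?_, ?_, ?_, ?_, ?_, ?_, ?_, ?_, ?_, ?_⟩, ?_, ?_⟩
  · rintro ⟨_ | i, z, z'⟩
    · exact hQ.hq z
    · simp only [QF.sum, c1]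
      exact hR.hq z'
  · rintro ⟨_ | i, z, z'⟩
    · exact hQ.hN z
    · simp only [QF.sum, c1]
      exact hR.hN z'
  · rintro ⟨_ | i, z, z'⟩
    · exact hQ.hb z
    · simp only [QF.sum, c1]
      exact hR.hb z'
  · rintro ⟨_ | i, z, z'⟩
    · exact hQ.hc z
    · simp only [QF.sum, c1]
      exact hR.hc z'
  · rintro ⟨_ | i, z, z'⟩
    · exact hQ.hW z
    · simp only [QF.sum, c1]
      exact hR.hW z'
  · rintro ⟨_ | i, z, z'⟩ mm v x y w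
    · exact hQ.ht z mm v x y w
    · simp only [QF.sum, c1]
      exact hR.ht z' mm v x y w
  · exact LS.ifz l1 (hQ.lN.comp l2) (hR.lN.comp l3)
  · exact LS.ifz l1 (hQ.lq.comp l2) (hR.lq.comp l3)
  · exact LS.ifz l1 (hQ.lb.comp l2) (hR.lb.comp l3)
  · exact LS.ifz l1 (hQ.lc.comp l2) (hR.lc.comp l3)
  · exact LS.ifz l1 (hQ.lW.comp l2) (hR.lW.comp l3)
  · exact LS.ifz m1 (hQ.lt.comp m2) (hR.lt.comp m3)
  · exact LS.ifz k1 (hQ.ls.comp k2) (hR.ls.comp k3)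
  · intro z z'
    unfold QF.ans QF.val QF.sum
    simp only [c0]
  · intro i z z'
    unfold QF.ans QF.val QF.sum
    simp only [c1]

end Pool.Agent.Helper57.UW
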